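import Mathlib
import Pool.Agent.Lib_MP_a0a64f_co.Core

set_option autoImplicit false

namespace Pool.Agent.Results.MP_a0a64f_co.SeparateEight

/-- An affine plane of `ℝ³`: an affine subspace whose direction is two-dimensional. -/
def IsPlane (H : AffineSubspace ℝ (EuclideanSpace ℝ (Fin 3))) : Prop :=
  Module.finrank ℝ H.direction = 2

/-- `P` is in general position: no plane contains four (distinct) points of `P`. -/
def GeneralPosition (P : Finset (EuclideanSpace ℝ (Fin 3))) : Prop :=
  ∀ Q : Finset (EuclideanSpace ℝ (Fin 3)), Q ⊆ P → Q.card = 4 →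
    ¬ ∃ H : AffineSubspace ℝ (EuclideanSpace ℝ (Fin 3)), IsPlane H ∧ ∀ x ∈ Q, x ∈ H

/-- The compartments of three planes: the connected components of the complement of their union. -/
def compartments (H : Fin 3 → AffineSubspace ℝ (EuclideanSpace ℝ (Fin 3))) :
    Set (Set (EuclideanSpace ℝ (Fin 3))) :=
  {C | ∃ x ∈ (⋃ i, (H i : Set (EuclideanSpace ℝ (Fin 3))))ᶜ,
    C = connectedComponentIn (⋃ i, (H i : Set (EuclideanSpace ℝ (Fin 3))))ᶜ x}

/-- The planes `H 0, H 1, H 2` separate `P`: no point of `P` lies on one of the planes, there are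
exactly eight compartments, and each compartment contains exactly one point of `P`. -/
def Separates (H : Fin 3 → AffineSubspace ℝ (EuclideanSpace ℝ (Fin 3)))
    (P : Finset (EuclideanSpace ℝ (Fin 3))) : Prop :=
  (∀ x ∈ P, ∀ i, x ∉ H i) ∧ (compartments H).ncard = 8 ∧
    ∀ C ∈ compartments H, ∃! x, x ∈ P ∧ x ∈ C

open Pool.Agent.Lib_MP_a0a64f_co

/-! ### The plane with equation `L v k x = 0` -/

theorem L_eq_inner (v x : EuclideanSpace ℝ (Fin 3)) (k : ℝ) : L v k x = inner ℝ v x - k := by
  unfold L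
  simp only [PiLp.inner_apply, Fin.sum_univ_three, RCLike.inner_apply, conj_trivial]
  ring

/-- the plane `{x | L v k x = 0}` -/
noncomputable def plane (v : EuclideanSpace ℝ (Fin 3)) (k : ℝ) :
    AffineSubspace ℝ (EuclideanSpace ℝ (Fin 3)) :=
  AffineSubspace.mk' ((k / (inner ℝ v v)) • v) (ℝ ∙ v)ᗮ

theorem mem_plane (v : EuclideanSpace ℝ (Fin 3)) (hv : v ≠ 0) (k : ℝ)
    (x : EuclideanSpace ℝ (Fin 3)) : x ∈ plane v k ↔ L v k x = 0 := by
  unfold plane
  rw [AffineSubspace.mem_mk', vsub_eq_sub, Submodule.mem_orthogonal_singleton_iff_inner_right,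
    inner_sub_right, inner_smul_right, L_eq_inner]
  have : inner ℝ v v ≠ 0 := by simpa using hv
  rw [div_mul_cancel₀ _ this]

theorem isPlane_plane (v : EuclideanSpace ℝ (Fin 3)) (hv : v ≠ 0) (k : ℝ) :
    IsPlane (plane v k) := by
  unfold IsPlane plane
  rw [AffineSubspace.direction_mk']
  have : Fact (Module.finrank ℝ (EuclideanSpace ℝ (Fin 3)) = 2 + 1) := ⟨by simp⟩
  exact Submodule.finrank_orthogonal_span_singleton hv

/-- a vanishing orientation determinant puts the four points on a plane -/
theorem coplanar_of_D (a b c d : EuclideanSpace ℝ (Fin 3)) (h : D a b c d = 0) :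
    ∃ v : EuclideanSpace ℝ (Fin 3), v ≠ 0 ∧ ∃ k, L v k a = 0 ∧ L v k b = 0 ∧ L v k c = 0 ∧
      L v k d = 0 := by
  let M : Matrix (Fin 3) (Fin 3) ℝ := !![b 0 - a 0, b 1 - a 1, b 2 - a 2;
    c 0 - a 0, c 1 - a 1, c 2 - a 2; d 0 - a 0, d 1 - a 1, d 2 - a 2]
  have hM : M.det = 0 := by
    rw [Matrix.det_fin_three]
    simp only [M, Matrix.of_apply, Matrix.cons_val', Matrix.cons_val_zero, Matrix.cons_val_one,
      Matrix.cons_val]
    rw [← h]; unfold D; ring
  obtain ⟨w, hw0, hw⟩ := Matrix.exists_mulVec_eq_zero_iff.mpr hM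
  have e0 := congrFun hw 0
  have e1 := congrFun hw 1
  have e2 := congrFun hw 2
  simp only [M, Matrix.mulVec, dotProduct, Fin.sum_univ_three, Matrix.of_apply, Matrix.cons_val',
    Matrix.cons_val_zero, Matrix.cons_val_one, Matrix.cons_val, Pi.zero_apply] at e0 e1 e2
  refine ⟨WithLp.toLp 2 w, ?_, w 0 * a 0 + w 1 * a 1 + w 2 * a 2, ?_, ?_, ?_, ?_⟩
  · intro h0
    apply hw0
    have := congrArg WithLp.ofLp h0
    simpa using this
  · unfold L; simp
  · unfold L; simp only []; linarith
  · unfold L; simp only []; linarith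
  · unfold L; simp only []; linarith

theorem gen_of_generalPosition (P : Finset (EuclideanSpace ℝ (Fin 3))) (h : GeneralPosition P) :
    Gen P := by
  classical
  intro a ha b hb c hc d hd hab hac had hbc hbd hcd h0
  obtain ⟨v, hv, k, h1, h2, h3, h4⟩ := coplanar_of_D a b c d h0
  refine h {a, b, c, d} ?_ ?_ ⟨plane v k, isPlane_plane v hv k, ?_⟩
  · intro x hx
    simp only [Finset.mem_insert, Finset.mem_singleton] at hx
    rcases hx with rfl | rfl | rfl | rfl <;> assumption
  · rw [Finset.card_insert_of_notMem, Finset.card_insert_of_notMem, Finset.card_insert_of_notMem,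
      Finset.card_singleton]
    · simpa using hcd
    · simp only [Finset.mem_insert, Finset.mem_singleton, not_or]; exact ⟨hbc, hbd⟩
    · simp only [Finset.mem_insert, Finset.mem_singleton, not_or]; exact ⟨hab, hac, had⟩
  · intro x hx
    simp only [Finset.mem_insert, Finset.mem_singleton] at hx
    rw [mem_plane v hv]
    rcases hx with rfl | rfl | rfl | rfl <;> assumption

/-! ### Compartments as open octants -/

/-- sign pattern of a point -/
noncomputable def pat (v : Fin 3 → EuclideanSpace ℝ (Fin 3)) (k : Fin 3 → ℝ)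
    (x : EuclideanSpace ℝ (Fin 3)) (i : Fin 3) : Bool :=
  open Classical in decide (0 < L (v i) (k i) x)

/-- open octant with a given sign pattern -/
def oct (v : Fin 3 → EuclideanSpace ℝ (Fin 3)) (k : Fin 3 → ℝ) (s : Fin 3 → Bool) :
    Set (EuclideanSpace ℝ (Fin 3)) :=
  {x | ∀ i, 0 < sg (s i) * L (v i) (k i) x}

theorem continuous_L (v : EuclideanSpace ℝ (Fin 3)) (k : ℝ) : Continuous (L v k) := by
  unfold L; fun_prop

theorem component_eq (v : Fin 3 → EuclideanSpace ℝ (Fin 3)) (hv : ∀ i, v i ≠ 0) (k : Fin 3 → ℝ)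
    (s : Fin 3 → Bool) (x : EuclideanSpace ℝ (Fin 3)) (hx : x ∈ oct v k s) :
    connectedComponentIn
      (⋃ i, (plane (v i) (k i) : Set (EuclideanSpace ℝ (Fin 3))))ᶜ x = oct v k s := by
  have hsub : oct v k s ⊆ (⋃ i, (plane (v i) (k i) : Set (EuclideanSpace ℝ (Fin 3))))ᶜ := by
    intro y hy hy'
    obtain ⟨i, hi⟩ := Set.mem_iUnion.mp hy'
    have h1 := hy i
    have h2 : L (v i) (k i) y = 0 := (mem_plane _ (hv i) _ _).mp hi
    rw [h2] at h1
    simp at h1
  apply Set.Subset.antisymm
  · intro y hy i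
    have hpre : IsPreconnected (connectedComponentIn
      (⋃ i, (plane (v i) (k i) : Set (EuclideanSpace ℝ (Fin 3))))ᶜ x) :=
      isPreconnected_connectedComponentIn
    have hxm : x ∈ connectedComponentIn
      (⋃ i, (plane (v i) (k i) : Set (EuclideanSpace ℝ (Fin 3))))ᶜ x :=
      mem_connectedComponentIn (hsub hx)
    by_contra hcon
    have hcon' : sg (s i) * L (v i) (k i) y ≤ 0 := not_lt.mp hcon
    have hiv := hpre.intermediate_value hy hxm
      (f := fun z => sg (s i) * L (v i) (k i) z)
      ((continuous_const.mul (continuous_L _ _)).continuousOn)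
    obtain ⟨z, hz, hz0⟩ := hiv ⟨hcon', (hx i).le⟩
    have hz1 := connectedComponentIn_subset _ _ hz
    apply hz1
    refine Set.mem_iUnion.mpr ⟨i, ?_⟩
    have : L (v i) (k i) z = 0 := by
      have h3 : sg (s i) ≠ 0 := by unfold sg; split_ifs <;> norm_num
      simpa [h3] using hz0
    exact (mem_plane _ (hv i) _ _).mpr this
  · apply IsPreconnected.subset_connectedComponentIn _ hx hsub
    apply Convex.isPreconnected
    intro y hy z hz a b ha hb hab i
    have h1 := hy i
    have h2 := hz i
    have h3 : sg (s i) * L (v i) (k i) (a • y + b • z) =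
        a * (sg (s i) * L (v i) (k i) y) + b * (sg (s i) * L (v i) (k i) z) := by
      unfold L
      have : k i = a * k i + b * k i := by rw [← add_mul, hab, one_mul]
      simp only [PiLp.add_apply, PiLp.smul_apply, smul_eq_mul]
      nth_rewrite 1 [this]
      ring
    rw [h3]
    rcases ha.lt_or_eq with h | h
    · have := mul_pos h h1
      have := mul_nonneg hb h2.le
      linarith
    · have hb1 : b = 1 := by linarith
      rw [← h, hb1]; linarith

theorem mem_compartments (v : Fin 3 → EuclideanSpace ℝ (Fin 3)) (hv : ∀ i, v i ≠ 0)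
    (k : Fin 3 → ℝ) (hne : ∀ s, (oct v k s).Nonempty) :
    compartments (fun i => plane (v i) (k i)) = Set.range (oct v k) := by
  ext C
  constructor
  · rintro ⟨x, hx, rfl⟩
    refine ⟨fun i => pat v k x i, ?_⟩
    symm
    apply component_eq v hv
    intro i
    have hx0 : L (v i) (k i) x ≠ 0 := by
      intro h0
      apply hx
      exact Set.mem_iUnion.mpr ⟨i, (mem_plane _ (hv i) _ _).mpr h0⟩
    unfold pat sg
    by_cases h : 0 < L (v i) (k i) x
    · simpa [h] using h
    · have : L (v i) (k i) x < 0 := lt_of_le_of_ne (not_lt.mp h) hx0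
      simpa [h] using this
  · rintro ⟨s, rfl⟩
    obtain ⟨x, hx⟩ := hne s
    refine ⟨x, ?_, (component_eq v hv k s x hx).symm⟩
    have := component_eq v hv k s x hx
    by_contra hcon
    rw [connectedComponentIn_eq_empty hcon] at this
    rw [← this] at hx
    exact hx

theorem oct_disjoint (v : Fin 3 → EuclideanSpace ℝ (Fin 3)) (k : Fin 3 → ℝ) (s t : Fin 3 → Bool)
    (x : EuclideanSpace ℝ (Fin 3)) (hs : x ∈ oct v k s) (ht : x ∈ oct v k t) : s = t := by
  funext i
  have h1 := hs i
  have h2 := ht i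
  unfold sg at h1 h2
  by_contra hne
  cases hsi : s i <;> cases hti : t i <;> simp [hsi, hti] at h1 h2 hne <;> linarith

/-- **Theorem.** Every set of eight points in general position in `ℝ³` can be separated by three
planes. -/
theorem result (P : Finset (EuclideanSpace ℝ (Fin 3))) (hP : P.card = 8)
    (hgen : GeneralPosition P) :
    ∃ H : Fin 3 → AffineSubspace ℝ (EuclideanSpace ℝ (Fin 3)),
      (∀ i, IsPlane (H i)) ∧ Separates H P := by
  classical
  have hG := gen_of_generalPosition P hgen
  obtain ⟨p, hpinj, hpP, hull⟩ := exists_labelling P hP hG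
  have himg : P = Finset.univ.image p := by
    symm
    apply Finset.eq_of_subset_of_card_le
    · intro x hx
      obtain ⟨i, _, rfl⟩ := Finset.mem_image.mp hx
      exact hpP i
    · rw [Finset.card_image_of_injective _ hpinj, hP]; simp
  have hnz : ∀ i j k l : Fin 8, i < j → j < k → k < l → D (p i) (p j) (p k) (p l) ≠ 0 := by
    intro i j k l hij hjk hkl
    exact hG _ (hpP i) _ (hpP j) _ (hpP k) _ (hpP l) (fun h => hij.ne (hpinj h))
      (fun h => (hij.trans hjk).ne (hpinj h)) (fun h => ((hij.trans hjk).trans hkl).ne (hpinj h))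
      (fun h => hjk.ne (hpinj h)) (fun h => (hjk.trans hkl).ne (hpinj h))
      (fun h => hkl.ne (hpinj h))
  by_contra hcon
  refine core p hnz hull ?_
  intro A B C hinj hA hB hC
  apply hcon
  rw [sep_iff] at hA hB hC
  obtain ⟨v0, k0, h0⟩ := hA
  obtain ⟨v1, k1, h1⟩ := hB
  obtain ⟨v2, k2, h2⟩ := hC
  let v : Fin 3 → EuclideanSpace ℝ (Fin 3) := ![v0, v1, v2]
  let k : Fin 3 → ℝ := ![k0, k1, k2]
  let S : Fin 8 → Fin 3 → Bool := fun y => ![A y, B y, C y]
  have hS : Function.Injective S := by
    intro y z hyz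
    apply hinj
    have e0 := congrFun hyz 0
    have e1 := congrFun hyz 1
    have e2 := congrFun hyz 2
    simp only [S, Matrix.cons_val_zero, Matrix.cons_val_one, Matrix.cons_val] at e0 e1 e2
    simp only [Prod.mk.injEq]
    exact ⟨e0, e1, e2⟩
  have hSbij : Function.Bijective S := by
    rw [Fintype.bijective_iff_injective_and_card]
    exact ⟨hS, by simp⟩
  have hmem : ∀ y, p y ∈ oct v k (S y) := by
    intro y i
    fin_cases i
    · exact h0 y
    · exact h1 y
    · exact h2 y
  have hne : ∀ s, (oct v k s).Nonempty := by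
    intro s
    obtain ⟨y, rfl⟩ := hSbij.2 s
    exact ⟨_, hmem y⟩
  have hv : ∀ i, v i ≠ 0 := by
    intro i hi
    -- two octants with opposite signs at i both nonempty
    obtain ⟨x, hx⟩ := hne (fun _ => true)
    obtain ⟨z, hz⟩ := hne (fun _ => false)
    have hx' := hx i
    have hz' := hz i
    rw [hi] at hx' hz'
    unfold L sg at hx' hz'
    simp at hx' hz'
    linarith
  have hcomp := mem_compartments v hv k hne
  have hoinj : Function.Injective (oct v k) := by
    intro s t hst
    obtain ⟨x, hx⟩ := hne s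
    exact oct_disjoint v k s t x hx (hst ▸ hx)
  refine ⟨fun i => plane (v i) (k i), fun i => isPlane_plane _ (hv i) _, ?_, ?_, ?_⟩
  · intro x hx i hxi
    rw [himg] at hx
    obtain ⟨y, _, rfl⟩ := Finset.mem_image.mp hx
    have h3 := hmem y i
    rw [(mem_plane _ (hv i) _ _).mp hxi] at h3
    simp at h3
  · rw [hcomp, ← Set.image_univ, Set.ncard_image_of_injective _ hoinj, Set.ncard_univ]
    simp
  · intro C hC
    rw [hcomp] at hC
    obtain ⟨s, rfl⟩ := hC
    obtain ⟨y, rfl⟩ := hSbij.2 s
    refine ⟨p y, ⟨hpP y, hmem y⟩, ?_⟩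
    rintro z ⟨hzP, hz⟩
    rw [himg] at hzP
    obtain ⟨w, _, rfl⟩ := Finset.mem_image.mp hzP
    have := oct_disjoint v k _ _ _ hz (hmem w)
    rw [hS this]

end Pool.Agent.Results.MP_a0a64f_co.SeparateEight
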